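import Mathlib
import Pool.Agent.MP_2f88e5_nt.Selberg

/-! [GPX-A] The Selberg sieve for two coordinates: the product of the weights of two sieves. -/

namespace GPX

open Finset Real
open Pool.Agent.MP_2f88e5_nt (selD selG selL mem_selD one_mem_selD selG_pos selL_one abs_selL_le
  quad_form log_le_two_selG)

/-- the value of the sieve at an integer without odd prime factors up to `z` -/
theorem sum_one {z m : ℕ} (hz : 1 ≤ z) (hs : ∀ l : ℕ, l.Prime → 3 ≤ l → l ≤ z → ¬ l ∣ m) :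
    ∑ d ∈ selD z, (if d ∣ m then selL z d else 0) = 1 := by
  rw [Finset.sum_eq_single_of_mem 1 (one_mem_selD hz)]
  · simp [selL_one hz]
  · intro d hd hd1
    rw [if_neg]
    intro hdm
    have hdm' := mem_selD.mp hd
    obtain ⟨l, hl, hld⟩ := Nat.exists_prime_and_dvd hd1
    have hlodd : Odd l := hdm'.2.1.of_dvd_nat hld
    have hl3 : 3 ≤ l := by
      have := hl.two_le
      rcases hlodd with ⟨k, hk⟩
      omega
    have hlz : l ≤ z := (Nat.le_of_dvd (by omega) hld).trans hdm'.1.2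
    exact hs l hl hl3 hlz (hld.trans hdm)

theorem sum_sq (z m : ℕ) : (∑ d ∈ selD z, if d ∣ m then selL z d else 0) ^ 2 =
    ∑ d1 ∈ selD z, ∑ d2 ∈ selD z, if Nat.lcm d1 d2 ∣ m then selL z d1 * selL z d2 else 0 := by
  rw [sq, Finset.sum_mul_sum]
  refine Finset.sum_congr rfl fun d1 _ => Finset.sum_congr rfl fun d2 _ => ?_
  by_cases h1 : d1 ∣ m
  · by_cases h2 : d2 ∣ m
    · rw [if_pos h1, if_pos h2, if_pos (Nat.lcm_dvd h1 h2)]
    · rw [if_neg h2, if_neg (fun h => h2 ((Nat.dvd_lcm_right _ _).trans h))]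
      ring
  · rw [if_neg h1, if_neg (fun h => h1 ((Nat.dvd_lcm_left _ _).trans h))]
    ring

theorem lcm_ok {z d1 d2 : ℕ} (h1 : d1 ∈ selD z) (h2 : d2 ∈ selD z) :
    1 ≤ Nat.lcm d1 d2 ∧ Nat.lcm d1 d2 ≤ z ^ 2 ∧ Odd (Nat.lcm d1 d2) := by
  have m1 := mem_selD.mp h1
  have m2 := mem_selD.mp h2
  refine ⟨Nat.pos_of_ne_zero (Nat.lcm_ne_zero (by omega) (by omega)), ?_,
    (m1.2.1.mul m2.2.1).of_dvd_nat (Nat.lcm_dvd_mul d1 d2)⟩
  calc Nat.lcm d1 d2 ≤ d1 * d2 := Nat.le_of_dvd (Nat.mul_pos m1.1.1 m2.1.1)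
        (Nat.lcm_dvd_mul d1 d2)
    _ ≤ z * z := Nat.mul_le_mul m1.1.2 m2.1.2
    _ = z ^ 2 := (sq z).symm

/-- an upper bound for the number of pairs without odd prime factors up to `z` -/
theorem selberg2 (T T' : Finset (ℕ × ℕ)) (X E : ℝ) (hX : 0 ≤ X) (z : ℕ) (hz : 2 ≤ z)
    (h : ∀ d e : ℕ, 1 ≤ d → 1 ≤ e → d ≤ z ^ 2 → e ≤ z ^ 2 → Odd d → Odd e →
      |((T.filter fun x : ℕ × ℕ => d ∣ x.1 ∧ e ∣ x.2).card : ℝ) - X / (d * e)| ≤ E)
    (hT : T' ⊆ T)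
    (hs : ∀ x ∈ T', ∀ l : ℕ, l.Prime → 3 ≤ l → l ≤ z → ¬ l ∣ x.1 ∧ ¬ l ∣ x.2) :
    (T'.card : ℝ) ≤ 4 * X / (log z) ^ 2 + z ^ 4 * E := by
  have hz1 : 1 ≤ z := by omega
  have hG := selG_pos hz1
  have hE : 0 ≤ E := (abs_nonneg _).trans
    (h 1 1 le_rfl le_rfl (by nlinarith) (by nlinarith) odd_one odd_one)
  have hcard : ((selD z).card : ℝ) ≤ z := by
    have : (selD z).card ≤ (Icc 1 z).card := Finset.card_filter_le _ _
    rw [Nat.card_Icc] at this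
    exact_mod_cast (by omega : (selD z).card ≤ z)
  have hlog : 0 < log z := Real.log_pos (by exact_mod_cast (by omega : 1 < z))
  have s1 : (T'.card : ℝ) ≤
      ∑ x ∈ T, (∑ d ∈ selD z, if d ∣ x.1 then selL z d else 0) ^ 2 *
        (∑ d ∈ selD z, if d ∣ x.2 then selL z d else 0) ^ 2 := by
    calc (T'.card : ℝ) = ∑ x ∈ T', (1 : ℝ) := by simp
      _ ≤ ∑ x ∈ T', (∑ d ∈ selD z, if d ∣ x.1 then selL z d else 0) ^ 2 *
          (∑ d ∈ selD z, if d ∣ x.2 then selL z d else 0) ^ 2 := by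
          refine Finset.sum_le_sum fun x hx => ?_
          rw [sum_one hz1 fun l a b c => (hs x hx l a b c).1,
            sum_one hz1 fun l a b c => (hs x hx l a b c).2]
          norm_num
      _ ≤ _ := Finset.sum_le_sum_of_subset_of_nonneg hT fun x _ _ => by positivity
  have s2 : ∑ x ∈ T, (∑ d ∈ selD z, if d ∣ x.1 then selL z d else 0) ^ 2 *
        (∑ d ∈ selD z, if d ∣ x.2 then selL z d else 0) ^ 2 =
      ∑ d1 ∈ selD z, ∑ d2 ∈ selD z, ∑ e1 ∈ selD z, ∑ e2 ∈ selD z,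
        selL z d1 * selL z d2 * (selL z e1 * selL z e2) *
        ((T.filter fun x : ℕ × ℕ => Nat.lcm d1 d2 ∣ x.1 ∧ Nat.lcm e1 e2 ∣ x.2).card : ℝ) := by
    have hA : ∀ x ∈ T, (∑ d ∈ selD z, if d ∣ x.1 then selL z d else 0) ^ 2 *
        (∑ d ∈ selD z, if d ∣ x.2 then selL z d else 0) ^ 2 =
        ∑ d1 ∈ selD z, ∑ d2 ∈ selD z, ∑ e1 ∈ selD z, ∑ e2 ∈ selD z,
          if Nat.lcm d1 d2 ∣ x.1 ∧ Nat.lcm e1 e2 ∣ x.2 then
            selL z d1 * selL z d2 * (selL z e1 * selL z e2) else 0 := by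
      intro x _
      rw [sum_sq, sum_sq, Finset.sum_mul]
      refine Finset.sum_congr rfl fun d1 _ => ?_
      rw [Finset.sum_mul]
      refine Finset.sum_congr rfl fun d2 _ => ?_
      rw [Finset.mul_sum]
      refine Finset.sum_congr rfl fun e1 _ => ?_
      rw [Finset.mul_sum]
      refine Finset.sum_congr rfl fun e2 _ => ?_
      by_cases h1 : Nat.lcm d1 d2 ∣ x.1 <;> by_cases h2 : Nat.lcm e1 e2 ∣ x.2 <;> simp [h1, h2]
    rw [Finset.sum_congr rfl hA, Finset.sum_comm]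
    refine Finset.sum_congr rfl fun d1 _ => ?_
    rw [Finset.sum_comm]
    refine Finset.sum_congr rfl fun d2 _ => ?_
    rw [Finset.sum_comm]
    refine Finset.sum_congr rfl fun e1 _ => ?_
    rw [Finset.sum_comm]
    refine Finset.sum_congr rfl fun e2 _ => ?_
    rw [Finset.card_filter]
    push_cast
    rw [Finset.mul_sum]
    refine Finset.sum_congr rfl fun x _ => ?_
    split_ifs <;> ring
  have s3 : ∀ d1 ∈ selD z, ∀ d2 ∈ selD z, ∀ e1 ∈ selD z, ∀ e2 ∈ selD z,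
      selL z d1 * selL z d2 * (selL z e1 * selL z e2) *
        ((T.filter fun x : ℕ × ℕ => Nat.lcm d1 d2 ∣ x.1 ∧ Nat.lcm e1 e2 ∣ x.2).card : ℝ) ≤
      X * ((selL z d1 * selL z d2 / (Nat.lcm d1 d2 : ℝ)) *
        (selL z e1 * selL z e2 / (Nat.lcm e1 e2 : ℝ))) + E := by
    intro d1 hd1 d2 hd2 e1 he1 e2 he2
    obtain ⟨a1, a2, a3⟩ := lcm_ok hd1 hd2
    obtain ⟨b1, b2, b3⟩ := lcm_ok he1 he2
    have hr := h _ _ a1 b1 a2 b2 a3 b3
    have hlam : |selL z d1 * selL z d2 * (selL z e1 * selL z e2)| ≤ 1 := by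
      rw [abs_mul, abs_mul, abs_mul]
      have c1 := abs_selL_le hz1 hd1
      have c2 := abs_selL_le hz1 hd2
      have c3 := abs_selL_le hz1 he1
      have c4 := abs_selL_le hz1 he2
      calc |selL z d1| * |selL z d2| * (|selL z e1| * |selL z e2|) ≤ 1 * 1 * (1 * 1) := by
            gcongr
        _ = 1 := by norm_num
    set N : ℝ := ((T.filter fun x : ℕ × ℕ => Nat.lcm d1 d2 ∣ x.1 ∧
      Nat.lcm e1 e2 ∣ x.2).card : ℝ) with hN
    set P : ℝ := selL z d1 * selL z d2 * (selL z e1 * selL z e2) with hP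
    have e1' : X * ((selL z d1 * selL z d2 / (Nat.lcm d1 d2 : ℝ)) *
        (selL z e1 * selL z e2 / (Nat.lcm e1 e2 : ℝ))) =
        P * (X / ((Nat.lcm d1 d2 : ℝ) * (Nat.lcm e1 e2 : ℝ))) := by
      rw [hP]
      have q1 : (Nat.lcm d1 d2 : ℝ) ≠ 0 := by positivity
      have q2 : (Nat.lcm e1 e2 : ℝ) ≠ 0 := by positivity
      field_simp
    rw [e1']
    have hdiff : P * (N - X / ((Nat.lcm d1 d2 : ℝ) * (Nat.lcm e1 e2 : ℝ))) ≤ E := by
      calc P * (N - X / ((Nat.lcm d1 d2 : ℝ) * (Nat.lcm e1 e2 : ℝ)))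
          ≤ |P * (N - X / ((Nat.lcm d1 d2 : ℝ) * (Nat.lcm e1 e2 : ℝ)))| := le_abs_self _
        _ = |P| * |N - X / ((Nat.lcm d1 d2 : ℝ) * (Nat.lcm e1 e2 : ℝ))| := abs_mul _ _
        _ ≤ 1 * E := mul_le_mul hlam hr (abs_nonneg _) zero_le_one
        _ = E := one_mul E
    linarith [mul_sub P N (X / ((Nat.lcm d1 d2 : ℝ) * (Nat.lcm e1 e2 : ℝ)))]
  have s4 : ∑ d1 ∈ selD z, ∑ d2 ∈ selD z, ∑ e1 ∈ selD z, ∑ e2 ∈ selD z,
      (X * ((selL z d1 * selL z d2 / (Nat.lcm d1 d2 : ℝ)) *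
        (selL z e1 * selL z e2 / (Nat.lcm e1 e2 : ℝ))) + E) =
      X * ((selG z)⁻¹ * (selG z)⁻¹) + ((selD z).card : ℝ) ^ 4 * E := by
    have q := quad_form hz1
    simp only [Finset.sum_add_distrib, Finset.sum_const, nsmul_eq_mul, ← Finset.mul_sum,
      ← Finset.sum_mul]
    rw [q]
    ring
  calc _ ≤ _ := s1
    _ = _ := s2
    _ ≤ _ := Finset.sum_le_sum fun d1 h1 => Finset.sum_le_sum fun d2 h2 =>
        Finset.sum_le_sum fun e1 h3 => Finset.sum_le_sum fun e2 h4 => s3 d1 h1 d2 h2 e1 h3 e2 h4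
    _ = _ := s4
    _ ≤ _ := by
        have g1 : (selG z)⁻¹ ≤ 2 / log z := by
          rw [inv_le_comm₀ hG (by positivity), inv_div]
          have := log_le_two_selG z hz
          linarith
        have g0 : 0 ≤ (selG z)⁻¹ := (inv_pos.2 hG).le
        apply add_le_add
        · calc X * ((selG z)⁻¹ * (selG z)⁻¹) ≤ X * ((2 / log z) * (2 / log z)) := by gcongr
            _ = 4 * X / (log z) ^ 2 := by ring
        · gcongr

end GPX
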