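import Mathlib
import Pool.Agent.MP_2f88e5_nt.Box
import Pool.Agent.GPX.A

/-! [GPX-B] Pairs of odd integers in a box with product `1` modulo `p`. -/

namespace GPX

open Finset Real
open Pool.Agent.MP_2f88e5_nt (odds mem_odds odd_count hyperbola)

/-- the pairs of odd integers in `(U, V] × (S, S']` with product `1` modulo `p` -/
noncomputable def TT (p : ℕ) (U V S S' : ℝ) : Finset (ℕ × ℕ) :=
  (odds U V ×ˢ odds S S').filter fun x : ℕ × ℕ => (x.1 : ZMod p) * (x.2 : ZMod p) = 1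

theorem TT_dvd (p : ℕ) [Fact p.Prime] (d e : ℕ) (hd : Odd d) (he : Odd e) {U V S S' : ℝ}
    (hU : 0 ≤ U) (hUV : U ≤ V) (hS : 0 ≤ S) (hSS : S ≤ S') : ∃ M n : ℕ, ∃ α γ : ZMod p,
      |(M : ℝ) - (V - U) / (2 * d)| ≤ 1 ∧ |(n : ℝ) - (S' - S) / (2 * e)| ≤ 1 ∧
      (((TT p U V S S').filter fun x : ℕ × ℕ => d ∣ x.1 ∧ e ∣ x.2).card : ℝ) =
        ((((range M) ×ˢ (range n)).filter fun ij : ℕ × ℕ =>
        (α + (2 * d : ZMod p) * (ij.1 : ZMod p)) * (γ + (2 * e : ZMod p) * (ij.2 : ZMod p)) =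
          1).card : ℝ) := by
  have hd0 : 0 < d := hd.pos
  have hd0' : (0 : ℝ) < d := by exact_mod_cast hd0
  have he0 : 0 < e := he.pos
  have he0' : (0 : ℝ) < e := by exact_mod_cast he0
  obtain ⟨t, M, hM, hM'⟩ := odd_count (u := U / d) (v := V / d) (by positivity) (by gcongr)
  obtain ⟨t', n, hn, hn'⟩ := odd_count (u := S / e) (v := S' / e) (by positivity) (by gcongr)
  refine ⟨M, n, (d : ZMod p) * (2 * t + 1 : ℕ), (e : ZMod p) * ((2 * t' + 1 : ℕ) : ZMod p), ?_,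
    ?_, ?_⟩
  · convert hM' using 2
    field_simp
  · convert hn' using 2
    field_simp
  have hV : 0 ≤ V := hU.trans hUV
  have hS' : 0 ≤ S' := hS.trans hSS
  congr 1
  symm
  apply Finset.card_bij (fun ij _ => ((d * (2 * t + 1 + 2 * ij.1), e * (2 * t' + 1 + 2 * ij.2)) :
    ℕ × ℕ))
  · rintro ⟨i, j⟩ hij
    rw [mem_filter, mem_product, mem_range, mem_range] at hij
    obtain ⟨⟨hi, hj⟩, h⟩ := hij
    have h1 := (hM (2 * t + 1 + 2 * i)).mpr ⟨i, hi, rfl⟩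
    have h2 := (hn (2 * t' + 1 + 2 * j)).mpr ⟨j, hj, rfl⟩
    rw [mem_filter, TT, mem_filter, mem_product, mem_odds hV, mem_odds hS']
    refine ⟨⟨⟨⟨?_, ?_, ?_⟩, ⟨?_, ?_, ?_⟩⟩, ?_⟩, dvd_mul_right _ _, dvd_mul_right _ _⟩
    · have := h1.1
      rw [div_lt_iff₀ hd0'] at this
      push_cast at this ⊢
      linarith
    · have := h1.2.1
      rw [le_div_iff₀ hd0'] at this
      push_cast at this ⊢
      linarith
    · exact hd.mul h1.2.2
    · have := h2.1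
      rw [div_lt_iff₀ he0'] at this
      push_cast at this ⊢
      linarith
    · have := h2.2.1
      rw [le_div_iff₀ he0'] at this
      push_cast at this ⊢
      linarith
    · exact he.mul h2.2.2
    · rw [← h]
      push_cast
      ring
  · rintro ⟨i, j⟩ _ ⟨i', j'⟩ _ h
    simp only [Prod.mk.injEq] at h
    obtain ⟨h1, h2⟩ := h
    have h3 := Nat.eq_of_mul_eq_mul_left hd0 h1
    have h3' := Nat.eq_of_mul_eq_mul_left he0 h2
    have h4 : i = i' := by omega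
    have h5 : j = j' := by omega
    rw [h4, h5]
  · rintro ⟨m, s⟩ h
    rw [mem_filter, TT, mem_filter, mem_product, mem_odds hV, mem_odds hS'] at h
    obtain ⟨⟨⟨⟨h1, h2, h3⟩, ⟨h4, h5, h6⟩⟩, h7⟩, ⟨b, hb⟩, ⟨c, hc⟩⟩ := h
    simp only at hb h1 h2 h3 h4 h5 h6 h7 hc
    subst hb
    subst hc
    have hb : Odd b := by
      rw [Nat.odd_mul] at h3
      exact h3.2
    have hc : Odd c := by
      rw [Nat.odd_mul] at h6
      exact h6.2
    obtain ⟨i, hi, hi'⟩ := (hM b).mp ⟨by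
      rw [div_lt_iff₀ hd0']; push_cast at h1; linarith, by
      rw [le_div_iff₀ hd0']; push_cast at h2; linarith, hb⟩
    obtain ⟨j, hj, hj'⟩ := (hn c).mp ⟨by
      rw [div_lt_iff₀ he0']; push_cast at h4; linarith, by
      rw [le_div_iff₀ he0']; push_cast at h5; linarith, hc⟩
    refine ⟨(i, j), ?_, ?_⟩
    · rw [mem_filter, mem_product, mem_range, mem_range]
      refine ⟨⟨hi, hj⟩, ?_⟩
      rw [hi', hj'] at h7
      rw [← h7]
      push_cast
      ring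
    · simp only [hi', hj']

/-- the error term -/
noncomputable def err (p : ℕ) (A B : ℝ) : ℝ :=
  (A + 1) * (B + 1) / p ^ 2 + (A + 1 + (B + 1)) * (2 + log p) / p +
    2 * (p : ℝ) ^ (3 / 4 : ℝ) * (1 + log p) ^ 2

theorem TT_count (p : ℕ) [Fact p.Prime] (hp2 : 2 < p) (d e : ℕ) (hd : Odd d) (he : Odd e)
    (hdp : ¬ p ∣ d) (hep : ¬ p ∣ e) {U V S S' : ℝ} (hU : 0 ≤ U) (hUV : U ≤ V) (hS : 0 ≤ S)
    (hSS : S ≤ S') :
    |(((TT p U V S S').filter fun x : ℕ × ℕ => d ∣ x.1 ∧ e ∣ x.2).card : ℝ) -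
        ((V - U) / 2 * ((S' - S) / 2) / p) / (d * e)| ≤ err p ((V - U) / 2) ((S' - S) / 2) := by
  obtain ⟨M, n, α, γ, hM, hn, hsum⟩ := TT_dvd p d e hd he hU hUV hS hSS
  have hp : p.Prime := Fact.out
  have hp0 : (0 : ℝ) < p := by exact_mod_cast hp.pos
  have h2 : (2 : ZMod p) ≠ 0 := by
    intro h
    have : ((2 : ℕ) : ZMod p) = 0 := by exact_mod_cast h
    rw [ZMod.natCast_eq_zero_iff] at this
    exact absurd (Nat.le_of_dvd (by norm_num) this) (by omega)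
  have hd' : (d : ZMod p) ≠ 0 := by
    rw [Ne, ZMod.natCast_eq_zero_iff]; exact hdp
  have he' : (e : ZMod p) ≠ 0 := by
    rw [Ne, ZMod.natCast_eq_zero_iff]; exact hep
  have key := hyperbola p α (2 * d) γ (2 * e) 1 (mul_ne_zero h2 hd') (mul_ne_zero h2 he')
    one_ne_zero M n
  rw [hsum]
  have hd1 : (1 : ℝ) ≤ d := by exact_mod_cast hd.pos
  have he1 : (1 : ℝ) ≤ e := by exact_mod_cast he.pos
  set N : ℝ := ((((range M) ×ˢ (range n)).filter fun ij : ℕ × ℕ =>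
        (α + (2 * d : ZMod p) * (ij.1 : ZMod p)) * (γ + (2 * e : ZMod p) * (ij.2 : ZMod p)) =
          1).card : ℝ) with hN
  set A : ℝ := (V - U) / 2 with hA
  set B : ℝ := (S' - S) / 2 with hB
  have hA0 : 0 ≤ A := by rw [hA]; linarith
  have hB0 : 0 ≤ B := by rw [hB]; linarith
  have hM' : |(M : ℝ) - A / d| ≤ 1 := by
    convert hM using 2
    rw [hA]
    field_simp
  have hn' : |(n : ℝ) - B / e| ≤ 1 := by
    convert hn using 2
    rw [hB]
    field_simp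
  have hAd : A / d ≤ A := div_le_self hA0 hd1
  have hAd0 : 0 ≤ A / d := by positivity
  have hBe : B / e ≤ B := div_le_self hB0 he1
  have hM1 : (M : ℝ) ≤ A + 1 := by
    have := (abs_le.mp hM').2
    linarith
  have hn1 : (n : ℝ) ≤ B + 1 := by
    have := (abs_le.mp hn').2
    linarith
  have hM0 : (0 : ℝ) ≤ M := by positivity
  have hn0 : (0 : ℝ) ≤ n := by positivity
  have hlog : 0 ≤ log p := Real.log_natCast_nonneg p
  -- difference of the main terms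
  have hdiff : |(M : ℝ) * n / p - (A * B / p) / (d * e)| ≤ (A + 1 + (B + 1)) * 1 / p := by
    have e : (M : ℝ) * n / p - (A * B / p) / (d * e) =
        (((M : ℝ) - A / d) * n + (A / d) * ((n : ℝ) - B / e)) / p := by
      field_simp
      ring
    rw [e, abs_div, abs_of_pos hp0]
    apply div_le_div_of_nonneg_right _ hp0.le
    calc |((M : ℝ) - A / d) * n + (A / d) * ((n : ℝ) - B / _)|
        ≤ |((M : ℝ) - A / d) * n| + |(A / d) * ((n : ℝ) - B / _)| := abs_add_le _ _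
      _ = |(M : ℝ) - A / d| * n + (A / d) * |(n : ℝ) - B / _| := by
          rw [abs_mul, abs_mul, abs_of_nonneg hn0, abs_of_nonneg hAd0]
      _ ≤ 1 * n + A * 1 := by gcongr
      _ ≤ (A + 1 + (B + 1)) * 1 := by linarith
  have e1 : (M : ℝ) * n / p ^ 2 ≤ (A + 1) * (B + 1) / p ^ 2 := by gcongr
  have e2 : ((M : ℝ) + n) * (1 + log p) / p ≤ (A + 1 + (B + 1)) * (1 + log p) / p := by gcongr
  calc |N - (A * B / p) / (d * e)|
      ≤ |N - M * n / p| + |(M : ℝ) * n / p - (A * B / p) / (d * e)| := abs_sub_le _ _ _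
    _ ≤ (M * n / p ^ 2 + (M + n) * (1 + log p) / p + 2 * (p : ℝ) ^ (3 / 4 : ℝ) * (1 + log p) ^ 2)
        + (A + 1 + (B + 1)) * 1 / p := add_le_add key hdiff
    _ ≤ ((A + 1) * (B + 1) / p ^ 2 + (A + 1 + (B + 1)) * (1 + log p) / p +
        2 * (p : ℝ) ^ (3 / 4 : ℝ) * (1 + log p) ^ 2) + (A + 1 + (B + 1)) * 1 / p := by
        gcongr
    _ = _ := by rw [err]; ring

/-- pairs in a box without small odd prime factors -/
theorem TT_sifted (p : ℕ) [Fact p.Prime] (hp2 : 2 < p) {U V S S' : ℝ} (hU : 0 ≤ U) (hUV : U ≤ V)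
    (hS : 0 ≤ S) (hSS : S ≤ S') (z : ℕ) (hz : 2 ≤ z) (hzp : z ^ 2 < p) (T' : Finset (ℕ × ℕ))
    (hT : T' ⊆ TT p U V S S')
    (hs : ∀ x ∈ T', ∀ l : ℕ, l.Prime → 3 ≤ l → l ≤ z → ¬ l ∣ x.1 ∧ ¬ l ∣ x.2) :
    (T'.card : ℝ) ≤ 4 * ((V - U) / 2 * ((S' - S) / 2) / p) / (log z) ^ 2 +
      z ^ 4 * err p ((V - U) / 2) ((S' - S) / 2) := by
  have hp0 : (0 : ℝ) < p := by exact_mod_cast (Fact.out : p.Prime).pos
  have a1 : 0 ≤ (V - U) / 2 := by linarith
  have a2 : 0 ≤ (S' - S) / 2 := by linarith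
  refine selberg2 (TT p U V S S') T' _ _ (by positivity) z hz ?_ hT hs
  intro d e h1 h2 h3 h4 h5 h6
  exact TT_count p hp2 d e h5 h6 (fun h0 => by
    have := Nat.le_of_dvd (by omega) h0
    omega) (fun h0 => by
    have := Nat.le_of_dvd (by omega) h0
    omega) hU hUV hS hSS

end GPX
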