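import Mathlib
import Pool.Agent.MP_2f88e5_nt.Box3
import Pool.Agent.GPX.B

/-! [GPX-C] Pairs without small prime factors in one dyadic box of the hyperbola. -/

namespace GPX

open Finset Real
open Pool.Agent.MP_2f88e5_nt (Large odds mem_odds)

variable {p : ℕ} {y L : ℝ}

theorem log_z2 (h : Large p y L) : 0.0199 * L ≤ log (⌊y ^ 2⌋₊ : ℝ) := by
  have hy := h.y_ge
  have hy0 : (0 : ℝ) < y := by linarith
  have h1 : y ^ 2 < ⌊y ^ 2⌋₊ + 1 := Nat.lt_floor_add_one _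
  have h2 : (2 : ℝ) ≤ y ^ 2 := by nlinarith
  have h3 : y ^ 2 / 2 ≤ (⌊y ^ 2⌋₊ : ℝ) := by linarith
  have h4 : log (y ^ 2 / 2) ≤ log (⌊y ^ 2⌋₊ : ℝ) := Real.log_le_log (by positivity) h3
  rw [Real.log_div (by positivity) (by norm_num), Real.log_pow] at h4
  have h5 : L = 100 * log y := by
    rw [h.hL, ← h.hy, Real.log_pow]
    norm_num
  have h6 := Real.log_two_lt_d9
  have h7 := h.h1
  push_cast at h4
  norm_num at h4 ⊢
  linarith

/-- the number of pairs without small prime factors in one box -/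
theorem box2 [Fact p.Prime] (h : Large p y L) {U S : ℝ} (hU : y ^ 93 ≤ U) (hS : y ^ 93 ≤ S)
    (T' : Finset (ℕ × ℕ)) (hT : T' ⊆ TT p U (2 * U) S (2 * S))
    (hs : ∀ x ∈ T', ∀ l : ℕ, l.Prime → 3 ≤ l → (l : ℝ) ≤ y ^ 2 → ¬ l ∣ x.1 ∧ ¬ l ∣ x.2) :
    (T'.card : ℝ) ≤ 2600 * (U * S) / (p * L ^ 2) := by
  have hy := h.y_ge
  have hy1 : (1 : ℝ) ≤ y := by linarith
  have hy0 : (0 : ℝ) < y := by linarith
  have hL := h.h1
  have hL0 : 0 < L := by linarith
  have hp0 : (0 : ℝ) < p := by rw [← h.hy]; positivity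
  have hbig : ∀ n : ℕ, 1 ≤ n → 1000000 ≤ y ^ n := by
    intro n hn
    calc (1000000 : ℝ) ≤ y := hy
      _ = y ^ 1 := (pow_one y).symm
      _ ≤ y ^ n := pow_le_pow_right₀ hy1 hn
  have hp1 : (1000000 : ℝ) ≤ p := by rw [← h.hy]; exact hbig 100 (by norm_num)
  have hp2 : 2 < p := by
    have : (2 : ℝ) < p := by linarith
    exact_mod_cast this
  obtain ⟨z, hz⟩ : ∃ z : ℕ, z = ⌊y ^ 2⌋₊ := ⟨_, rfl⟩
  have hzle : (z : ℝ) ≤ y ^ 2 := by rw [hz]; exact Nat.floor_le (by positivity)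
  have hz2 : 2 ≤ z := by
    rw [hz]
    exact Nat.le_floor (by push_cast; linarith [hbig 2 (by norm_num)])
  have hz4 : (z : ℝ) ^ 4 ≤ y ^ 8 := by
    calc (z : ℝ) ^ 4 ≤ (y ^ 2) ^ 4 := pow_le_pow_left₀ (by positivity) hzle 4
      _ = y ^ 8 := by ring
  have hzp : z ^ 2 < p := by
    have : (z : ℝ) ^ 2 < p := by
      rw [← h.hy]
      calc (z : ℝ) ^ 2 ≤ (y ^ 2) ^ 2 := pow_le_pow_left₀ (by positivity) hzle 2
        _ = y ^ 4 := by ring
        _ < y ^ 100 := pow_lt_pow_right₀ (by linarith) (by norm_num)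
    exact_mod_cast this
  have hU0 : 0 < U := lt_of_lt_of_le (by positivity) hU
  have hS0 : 0 < S := lt_of_lt_of_le (by positivity) hS
  have hU1 : 1000000 ≤ U := (hbig 93 (by norm_num)).trans hU
  have hS1 : 1000000 ≤ S := (hbig 93 (by norm_num)).trans hS
  have key := TT_sifted p hp2 (U := U) (V := 2 * U) (S := S) (S' := 2 * S) hU0.le (by linarith)
    hS0.le (by linarith) z hz2 hzp T' hT (fun x hx l hl h3 hlz => hs x hx l hl h3
      ((by exact_mod_cast hlz : (l : ℝ) ≤ z).trans hzle))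
  refine key.trans ?_
  have hlz := log_z2 h
  rw [← hz] at hlz
  have hlz0 : 0 < log z := lt_of_lt_of_le (by positivity) hlz
  have e1 : (2 * U - U) / 2 = U / 2 := by ring
  have e2 : (2 * S - S) / 2 = S / 2 := by ring
  rw [e1, e2]
  have hlogp : log (p : ℝ) = L := h.hL.symm
  have hp34 : (p : ℝ) ^ (3 / 4 : ℝ) = y ^ 75 := by
    rw [← h.hy, ← Real.rpow_natCast, ← Real.rpow_mul hy0.le, ← Real.rpow_natCast]
    norm_num
  have hUS : 0 < U * S := mul_pos hU0 hS0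
  -- the main term
  have hmain : 4 * (U / 2 * (S / 2) / p) / (log z) ^ 2 ≤ 2550 * (U * S) / (p * L ^ 2) := by
    have g1 : (0.0199 * L) ^ 2 ≤ (log z) ^ 2 := pow_le_pow_left₀ (by positivity) hlz 2
    calc 4 * (U / 2 * (S / 2) / p) / (log z) ^ 2
        ≤ 4 * (U / 2 * (S / 2) / p) / (0.0199 * L) ^ 2 := by gcongr
      _ = (1 / 0.0199 ^ 2) * ((U * S) / (p * L ^ 2)) := by field_simp; ring
      _ ≤ 2550 * ((U * S) / (p * L ^ 2)) := by
        gcongr
        norm_num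
      _ = _ := by ring
  -- the error term
  have t1 : (U / 2 + 1) * (S / 2 + 1) / p ^ 2 ≤ (U * S) / p * (1 / y ^ 100) := by
    rw [h.hy]
    calc (U / 2 + 1) * (S / 2 + 1) / (p : ℝ) ^ 2 ≤ U * S / (p : ℝ) ^ 2 := by
          gcongr
          · linarith
          · linarith
      _ = _ := by field_simp
  have t2 : (U / 2 + 1 + (S / 2 + 1)) * (2 + L) / p ≤ (U * S) / p * (2 * (2 + L) / y ^ 93) := by
    have g1 : U / 2 + 1 ≤ U * S / y ^ 93 := by
      rw [le_div_iff₀ (by positivity)]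
      calc (U / 2 + 1) * y ^ 93 ≤ U * S := by
            gcongr
            linarith
        _ = U * S := rfl
    have g2 : S / 2 + 1 ≤ U * S / y ^ 93 := by
      rw [le_div_iff₀ (by positivity)]
      calc (S / 2 + 1) * y ^ 93 ≤ S * U := by
            gcongr
            linarith
        _ = U * S := mul_comm _ _
    calc (U / 2 + 1 + (S / 2 + 1)) * (2 + L) / p
        ≤ (U * S / y ^ 93 + U * S / y ^ 93) * (2 + L) / p := by gcongr
      _ = _ := by field_simp; ring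
  have t3 : 2 * y ^ 75 * (1 + L) ^ 2 ≤ (U * S) / p * (2 * (1 + L) ^ 2 / y ^ 11) := by
    have g1 : y ^ 186 ≤ U * S := by
      calc y ^ 186 = y ^ 93 * y ^ 93 := by ring
        _ ≤ U * S := by gcongr
    calc 2 * y ^ 75 * (1 + L) ^ 2 = y ^ 186 / p * (2 * (1 + L) ^ 2 / y ^ 11) := by
          rw [← h.hy]; field_simp
      _ ≤ _ := by gcongr
  have herr : (z : ℝ) ^ 4 * err p (U / 2) (S / 2) ≤ 50 * (U * S) / (p * L ^ 2) := by
    rw [err, hlogp, hp34]
    have s1 : (1 : ℝ) / y ^ 100 ≤ 1 / y ^ 11 := by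
      apply one_div_le_one_div_of_le (by positivity)
      exact pow_le_pow_right₀ hy1 (by norm_num)
    have s2 : 2 * (2 + L) / y ^ 93 ≤ 4 * (1 + L) / y ^ 11 := by
      have r0 : y ^ 11 ≤ y ^ 93 := pow_le_pow_right₀ hy1 (by norm_num)
      have r1 : 2 * (2 + L) ≤ 4 * (1 + L) := by linarith
      exact div_le_div₀ (by positivity) r1 (by positivity) r0
    have s3 : (1 : ℝ) / y ^ 100 + 2 * (2 + L) / y ^ 93 + 2 * (1 + L) ^ 2 / y ^ 11 ≤
        3 * (1 + L) ^ 2 / y ^ 11 := by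
      have : 1 / y ^ 11 + 4 * (1 + L) / y ^ 11 + 2 * (1 + L) ^ 2 / y ^ 11 ≤
          3 * (1 + L) ^ 2 / y ^ 11 := by
        rw [← add_div, ← add_div]
        gcongr
        nlinarith
      linarith
    have s4 : y ^ 8 * (3 * (1 + L) ^ 2 / y ^ 11) ≤ 50 / L ^ 2 := by
      rw [le_div_iff₀ (by positivity)]
      have h8 := h.h2
      have h9 : (1 + L) ^ 2 * L ^ 2 ≤ y * y := by
        have r1 : (1 + L) ^ 2 ≤ (1 + L) ^ 3 := pow_le_pow_right₀ (by linarith) (by norm_num)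
        have r2 : L ^ 2 ≤ (1 + L) ^ 2 := by gcongr; linarith
        have r3 : (1 + L) ^ 3 ≤ y := by
          have : 0 ≤ (1 + L) ^ 3 := by positivity
          linarith
        exact mul_le_mul (r1.trans r3) ((r2.trans r1).trans r3) (by positivity) hy0.le
      calc y ^ 8 * (3 * (1 + L) ^ 2 / y ^ 11) * L ^ 2 = 3 * ((1 + L) ^ 2 * L ^ 2) / y ^ 3 := by
            field_simp
        _ ≤ 3 * (y * y) / y ^ 3 := by gcongr
        _ = 3 / y := by field_simp
        _ ≤ 50 := by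
            rw [div_le_iff₀ hy0]
            linarith
    calc (z : ℝ) ^ 4 * ((U / 2 + 1) * (S / 2 + 1) / p ^ 2 +
          (U / 2 + 1 + (S / 2 + 1)) * (2 + L) / p + 2 * y ^ 75 * (1 + L) ^ 2)
        ≤ y ^ 8 * ((U * S) / p * (1 / y ^ 100) + (U * S) / p * (2 * (2 + L) / y ^ 93) +
          (U * S) / p * (2 * (1 + L) ^ 2 / y ^ 11)) := by gcongr
      _ = (U * S) / p * (y ^ 8 * ((1 : ℝ) / y ^ 100 + 2 * (2 + L) / y ^ 93 +
          2 * (1 + L) ^ 2 / y ^ 11)) := by ring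
      _ ≤ (U * S) / p * (y ^ 8 * (3 * (1 + L) ^ 2 / y ^ 11)) := by gcongr
      _ ≤ (U * S) / p * (50 / L ^ 2) := by gcongr
      _ = _ := by field_simp
  have hfin : 2550 * (U * S) / (p * L ^ 2) + 50 * (U * S) / (p * L ^ 2) =
      2600 * (U * S) / (p * L ^ 2) := by ring
  linarith

end GPX
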