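import Mathlib
import Pool.Agent.GPX.C

/-! [GPX-D] Pairs without small prime factors on the hyperbola, with logarithmic weights. -/

namespace GPX

open Finset Real
open Pool.Agent.MP_2f88e5_nt (Large odds mem_odds)

variable {p : ℕ} {y L : ℝ}

/-- the number of integers in a half open interval -/
theorem card_Ioc_le (a b : ℝ) (hab : a ≤ b) : ((Ioc ⌊a⌋ ⌊b⌋).card : ℝ) ≤ b - a + 1 := by
  rw [Int.card_Ioc]
  have h1 : ⌊a⌋ ≤ ⌊b⌋ := Int.floor_mono hab
  have h2 : (((⌊b⌋ - ⌊a⌋).toNat : ℕ) : ℤ) = ⌊b⌋ - ⌊a⌋ := Int.toNat_of_nonneg (by omega)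
  have h3 : (((⌊b⌋ - ⌊a⌋).toNat : ℕ) : ℝ) = (⌊b⌋ : ℝ) - ⌊a⌋ := by exact_mod_cast h2
  rw [h3]
  have := Int.floor_le b
  have := Int.lt_floor_add_one a
  linarith

/-- pairs without small prime factors, with both coordinates large, on the hyperbola -/
theorem core [Fact p.Prime] (h : Large p y L) {Y W1 W2 : ℝ} (hY : y ^ 94 ≤ Y) (hW1 : 0 < W1)
    (hW : W1 ≤ W2) (hYW0 : Y ^ 2 ≤ W2) (T : Finset (ℕ × ℕ)) (hT : ∀ x ∈ T, Odd x.1 ∧ Odd x.2 ∧ Y < x.1 ∧ Y < x.2 ∧
      W1 < (x.1 : ℝ) * x.2 ∧ (x.1 : ℝ) * x.2 ≤ W2 ∧ (x.1 : ZMod p) * (x.2 : ZMod p) = 1 ∧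
      ∀ l : ℕ, l.Prime → 3 ≤ l → (l : ℝ) ≤ y ^ 2 → ¬ l ∣ x.1 ∧ ¬ l ∣ x.2) :
    ∑ x ∈ T, 1 / ((x.1 : ℝ) * x.2) ≤
      (Real.logb 2 (W2 / Y ^ 2) + 2) * (Real.logb 2 (W2 / W1) + 3) * (2600 / (p * L ^ 2)) := by
  classical
  have hy := h.y_ge
  have hy1 : (1 : ℝ) ≤ y := by linarith
  have hy0 : (0 : ℝ) < y := by linarith
  have hp0 : (0 : ℝ) < p := by rw [← h.hy]; positivity
  have hL := h.h1
  have hL0 : 0 < L := by linarith
  have hY0 : 0 < Y := lt_of_lt_of_le (by positivity) hY
  have hY1 : 1 ≤ Y := le_trans (one_le_pow₀ hy1) hY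
  rcases T.eq_empty_or_nonempty with hTe | ⟨x0, hx0⟩
  · rw [hTe, sum_empty]
    have g1 : 0 ≤ Real.logb 2 (W2 / Y ^ 2) :=
      Real.logb_nonneg (by norm_num) ((one_le_div (by positivity)).mpr hYW0)
    have g2 : 0 ≤ Real.logb 2 (W2 / W1) :=
      Real.logb_nonneg (by norm_num) ((one_le_div hW1).mpr hW)
    positivity
  · obtain ⟨a1, a2, a3, a4, a5, a6, -, -⟩ := hT x0 hx0
    have hW12 : W1 < W2 := lt_of_lt_of_le a5 a6
    have hW2 : 0 < W2 := hW1.trans hW12
    have hYW : Y ^ 2 < W2 := by nlinarith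
    set K : Finset (ℤ × ℤ) := (Ioc ⌊Real.logb 2 Y - 1⌋ ⌊Real.logb 2 (W2 / Y)⌋) ×ˢ
      (Ioc ⌊Real.logb 2 W1 - 2⌋ ⌊Real.logb 2 W2⌋) with hK
    set f : ℕ × ℕ → ℤ × ℤ := fun x => ((Nat.log 2 x.1 : ℤ), (Nat.log 2 x.1 : ℤ) +
      (Nat.log 2 x.2 : ℤ)) with hf
    have hlog : ∀ n : ℕ, n ≠ 0 → ((Nat.log 2 n : ℕ) : ℝ) ≤ Real.logb 2 n ∧
        Real.logb 2 n < (Nat.log 2 n : ℕ) + 1 := by
      intro n hn
      have hn0 : (0 : ℝ) < n := by exact_mod_cast Nat.pos_of_ne_zero hn
      constructor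
      · rw [Real.le_logb_iff_rpow_le (by norm_num) hn0, Real.rpow_natCast]
        exact_mod_cast Nat.pow_log_le_self 2 hn
      · rw [Real.logb_lt_iff_lt_rpow (by norm_num) hn0]
        have := Nat.lt_pow_succ_log_self (b := 2) (by norm_num) n
        rw [show ((Nat.log 2 n : ℕ) : ℝ) + 1 = ((Nat.log 2 n + 1 : ℕ) : ℝ) by push_cast; ring,
          Real.rpow_natCast]
        exact_mod_cast this
    have hmaps : ∀ x ∈ T, f x ∈ K := by
      intro x hx
      obtain ⟨b1, b2, b3, b4, b5, b6, -, -⟩ := hT x hx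
      have n1 : x.1 ≠ 0 := b1.pos.ne'
      have n2 : x.2 ≠ 0 := b2.pos.ne'
      have r1 : (0 : ℝ) < x.1 := by exact_mod_cast b1.pos
      have r2 : (0 : ℝ) < x.2 := by exact_mod_cast b2.pos
      have l1 := hlog x.1 n1
      have l2 := hlog x.2 n2
      have c1 : Real.logb 2 Y < Real.logb 2 x.1 := Real.logb_lt_logb (by norm_num) hY0 b3
      have c2 : Real.logb 2 x.1 ≤ Real.logb 2 (W2 / Y) := by
        apply Real.logb_le_logb_of_le (by norm_num) r1
        rw [le_div_iff₀ hY0]
        nlinarith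
      have c3 : Real.logb 2 W1 < Real.logb 2 x.1 + Real.logb 2 x.2 := by
        rw [← Real.logb_mul r1.ne' r2.ne']
        exact Real.logb_lt_logb (by norm_num) hW1 b5
      have c4 : Real.logb 2 x.1 + Real.logb 2 x.2 ≤ Real.logb 2 W2 := by
        rw [← Real.logb_mul r1.ne' r2.ne']
        exact Real.logb_le_logb_of_le (by norm_num) (by positivity) b6
      rw [hK, mem_product, mem_Ioc, mem_Ioc]
      refine ⟨⟨?_, ?_⟩, ?_, ?_⟩
      · rw [Int.floor_lt]
        simp only [hf]
        push_cast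
        linarith
      · rw [Int.le_floor]
        simp only [hf]
        push_cast
        linarith
      · rw [Int.floor_lt]
        simp only [hf]
        push_cast
        linarith
      · rw [Int.le_floor]
        simp only [hf]
        push_cast
        linarith
    have hKcard : (K.card : ℝ) ≤ (Real.logb 2 (W2 / Y ^ 2) + 2) * (Real.logb 2 (W2 / W1) + 3) := by
      have d1 : Real.logb 2 Y < Real.logb 2 (W2 / Y) := by
        apply Real.logb_lt_logb (by norm_num) hY0
        rw [lt_div_iff₀ hY0]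
        nlinarith
      have d2 : Real.logb 2 W1 < Real.logb 2 W2 := Real.logb_lt_logb (by norm_num) hW1 hW12
      have k1 := card_Ioc_le (Real.logb 2 Y - 1) (Real.logb 2 (W2 / Y)) (by linarith)
      have k2 := card_Ioc_le (Real.logb 2 W1 - 2) (Real.logb 2 W2) (by linarith)
      have e1 : Real.logb 2 (W2 / Y ^ 2) = Real.logb 2 (W2 / Y) - Real.logb 2 Y := by
        rw [← Real.logb_div (by positivity) (by positivity)]
        congr 1
        field_simp
      have e2 : Real.logb 2 (W2 / W1) = Real.logb 2 W2 - Real.logb 2 W1 :=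
        Real.logb_div (by positivity) (by positivity)
      rw [hK, card_product, e1, e2]
      push_cast
      apply mul_le_mul (by linarith) (by linarith) (by positivity) (by linarith)
    have hfib : ∀ c ∈ K, ∑ x ∈ T.filter (fun x => f x = c), 1 / ((x.1 : ℝ) * x.2) ≤
        2600 / (p * L ^ 2) := by
      intro c _
      rcases (T.filter (fun x => f x = c)).eq_empty_or_nonempty with he | ⟨x1, hx1⟩
      · rw [he, sum_empty]
        positivity
      · rw [mem_filter] at hx1
        obtain ⟨hx1T, hx1c⟩ := hx1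
        obtain ⟨i, hi⟩ : ∃ i : ℕ, i = Nat.log 2 x1.1 := ⟨_, rfl⟩
        obtain ⟨j, hj⟩ : ∃ j : ℕ, j = Nat.log 2 x1.2 := ⟨_, rfl⟩
        have hlg : ∀ x ∈ T.filter (fun x => f x = c), Nat.log 2 x.1 = i ∧ Nat.log 2 x.2 = j := by
          intro x hx
          rw [mem_filter] at hx
          have e := hx.2.trans hx1c.symm
          simp only [hf, Prod.mk.injEq] at e
          constructor <;> omega
        have hbox : ∀ x ∈ T.filter (fun x => f x = c), (2 : ℝ) ^ i < x.1 ∧ (x.1 : ℝ) < 2 * 2 ^ i ∧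
            (2 : ℝ) ^ j < x.2 ∧ (x.2 : ℝ) < 2 * 2 ^ j := by
          intro x hx
          obtain ⟨m1, m2⟩ := hlg x hx
          rw [mem_filter] at hx
          obtain ⟨b1, b2, b3, b4, b5, b6, -, -⟩ := hT x hx.1
          have hgen : ∀ n k : ℕ, Odd n → (1 : ℝ) < n → Nat.log 2 n = k → (2 : ℝ) ^ k < n ∧
              (n : ℝ) < 2 * 2 ^ k := by
            intro n k hn h1 hk
            have n0 : n ≠ 0 := hn.pos.ne'
            have g1 := Nat.pow_log_le_self 2 n0
            have g2 := Nat.lt_pow_succ_log_self (b := 2) (by norm_num) n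
            rw [hk] at g1 g2
            have h1' : 1 < n := by exact_mod_cast h1
            have g3 : 2 ^ k ≠ n := by
              intro he
              rcases Nat.eq_zero_or_pos k with h0 | h0
              · rw [h0] at he
                omega
              · rw [← he] at hn
                have : Even (2 ^ k) := (Nat.even_pow.mpr ⟨even_two, by omega⟩)
                exact (Nat.not_even_iff_odd.mpr hn) this
            have g4 : 2 ^ k < n := lt_of_le_of_ne g1 g3
            constructor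
            · exact_mod_cast g4
            · have : n < 2 * 2 ^ k := by rw [pow_succ] at g2; omega
              exact_mod_cast this
          have u1 := hgen x.1 i b1 (by linarith) m1
          have u2 := hgen x.2 j b2 (by linarith) m2
          exact ⟨u1.1, u1.2, u2.1, u2.2⟩
        have hx1' : x1 ∈ T.filter (fun x => f x = c) := mem_filter.mpr ⟨hx1T, hx1c⟩
        obtain ⟨v1, v2, v3, v4⟩ := hbox x1 hx1'
        obtain ⟨b1, b2, b3, b4, b5, b6, -, -⟩ := hT x1 hx1T
        have y94 : 2 * y ^ 93 ≤ y ^ 94 := by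
          have : y ^ 94 = y * y ^ 93 := by ring
          rw [this]
          have : 0 < y ^ 93 := by positivity
          nlinarith
        have hU : y ^ 93 ≤ (2 : ℝ) ^ i := by linarith
        have hS : y ^ 93 ≤ (2 : ℝ) ^ j := by linarith
        have hcard := box2 h hU hS (T.filter (fun x => f x = c)) (by
          intro x hx
          obtain ⟨w1, w2, w3, w4⟩ := hbox x hx
          rw [mem_filter] at hx
          obtain ⟨b1, b2, b3, b4, b5, b6, b7, -⟩ := hT x hx.1
          rw [TT, mem_filter, mem_product, mem_odds (by positivity), mem_odds (by positivity)]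
          exact ⟨⟨⟨w1, w2.le, b1⟩, ⟨w3, w4.le, b2⟩⟩, b7⟩) (by
          intro x hx
          rw [mem_filter] at hx
          exact (hT x hx.1).2.2.2.2.2.2.2)
        have hU0 : (0 : ℝ) < 2 ^ i := by positivity
        have hS0 : (0 : ℝ) < 2 ^ j := by positivity
        calc ∑ x ∈ T.filter (fun x => f x = c), 1 / ((x.1 : ℝ) * x.2)
            ≤ ∑ x ∈ T.filter (fun x => f x = c), 1 / ((2 : ℝ) ^ i * 2 ^ j) := by
              refine Finset.sum_le_sum fun x hx => ?_
              obtain ⟨w1, w2, w3, w4⟩ := hbox x hx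
              apply one_div_le_one_div_of_le (by positivity)
              exact mul_le_mul w1.le w3.le (by positivity) (by linarith)
          _ = ((T.filter (fun x => f x = c)).card : ℝ) * (1 / ((2 : ℝ) ^ i * 2 ^ j)) := by
              rw [sum_const, nsmul_eq_mul]
          _ ≤ (2600 * ((2 : ℝ) ^ i * 2 ^ j) / (p * L ^ 2)) * (1 / ((2 : ℝ) ^ i * 2 ^ j)) := by
              gcongr
          _ = _ := by field_simp
    calc ∑ x ∈ T, 1 / ((x.1 : ℝ) * x.2)
        = ∑ c ∈ K, ∑ x ∈ T.filter (fun x => f x = c), 1 / ((x.1 : ℝ) * x.2) :=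
          (Finset.sum_fiberwise_of_maps_to hmaps _).symm
      _ ≤ ∑ c ∈ K, 2600 / (p * L ^ 2) := Finset.sum_le_sum hfib
      _ = (K.card : ℝ) * (2600 / (p * L ^ 2)) := by rw [sum_const, nsmul_eq_mul]
      _ ≤ _ := by gcongr

end GPX
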