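import Mathlib
import Pool.Agent.GPX.D

/-! [GPX-E] Products of two primes of the same size in the residue class `1` modulo `p`. -/

namespace GPX

open Finset Real
open Pool.Agent.MP_2f88e5_nt (Large exists_large)

/-- For `X ≤ p ≤ 2 X`, the reciprocals of the products `q₁ q₂ ≡ 1 (mod p)` of two primes
`q₁, q₂ > X ^ (1 - e)` with `X ^ (2 - 2 η) < q₁ q₂ ≤ X ^ (2 - η)` have sum at most
`C e η / p`. -/
theorem gap (e η : ℝ) (he : 0 < e) (he1 : e ≤ 1 / 20) (hη : 0 < η) : ∃ X0 : ℝ, 1 ≤ X0 ∧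
    ∀ X : ℝ, X0 ≤ X → ∀ p : ℕ, p.Prime → X ≤ p → (p : ℝ) ≤ 2 * X →
    ∀ T : Finset (ℕ × ℕ), (∀ x ∈ T, x.1.Prime ∧ x.2.Prime ∧ X ^ (1 - e) < (x.1 : ℝ) ∧
      X ^ (1 - e) < (x.2 : ℝ) ∧ X ^ (2 - 2 * η) < (x.1 : ℝ) * x.2 ∧
      (x.1 : ℝ) * x.2 ≤ X ^ (2 - η) ∧ x.1 * x.2 ≡ 1 [MOD p]) →
    ∑ x ∈ T, 1 / ((x.1 : ℝ) * x.2) ≤ 40000 * e * η / p := by
  obtain ⟨p₀, hp₀⟩ := exists_large
  refine ⟨max (max p₀ 1) (exp (max (2 / e) (2 / η))), (le_max_right _ _).trans (le_max_left _ _),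
    ?_⟩
  intro X hX p hp hXp hpX T hT
  have : Fact p.Prime := ⟨hp⟩
  have hX1 : 1 ≤ X := ((le_max_right (p₀ : ℝ) 1).trans (le_max_left _ _)).trans hX
  have hX0 : 0 < X := by linarith
  have hXp₀ : (p₀ : ℝ) ≤ X := ((le_max_left (p₀ : ℝ) 1).trans (le_max_left _ _)).trans hX
  have hpp₀ : p₀ ≤ p := by exact_mod_cast hXp₀.trans hXp
  have h := hp₀ p hpp₀
  obtain ⟨y, hy'⟩ : ∃ y : ℝ, y = (p : ℝ) ^ (1 / 100 : ℝ) := ⟨_, rfl⟩
  obtain ⟨L, hL'⟩ : ∃ L : ℝ, L = log p := ⟨_, rfl⟩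
  rw [← hy', ← hL'] at h
  have hp0 : (0 : ℝ) < p := by exact_mod_cast hp.pos
  have hlogX : max (2 / e) (2 / η) ≤ log X := by
    rw [Real.le_log_iff_exp_le hX0]
    exact (le_max_right _ _).trans hX
  have hlogXL : log X ≤ L := by rw [hL']; exact Real.log_le_log hX0 hXp
  have heL : 2 ≤ e * L := by
    have : 2 / e ≤ L := ((le_max_left _ _).trans hlogX).trans hlogXL
    rw [div_le_iff₀ he] at this
    linarith
  have hηL : 2 ≤ η * L := by
    have : 2 / η ≤ L := ((le_max_right _ _).trans hlogX).trans hlogXL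
    rw [div_le_iff₀ hη] at this
    linarith
  have hy := h.y_ge
  have hy1 : (1 : ℝ) ≤ y := by linarith
  have hy0 : (0 : ℝ) < y := by linarith
  have hL := h.h1
  have hL0 : 0 < L := by linarith
  rcases T.eq_empty_or_nonempty with hTe | ⟨x0, hx0⟩
  · rw [hTe, sum_empty]
    positivity
  obtain ⟨a1, a2, a3, a4, a5, a6, -⟩ := hT x0 hx0
  have hY : y ^ 94 ≤ X ^ (1 - e) := by
    have h1 : y ^ 99 ≤ X := by
      have : y ^ 100 ≤ 2 * X := by rw [h.hy]; exact hpX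
      have h3 : 2 * y ^ 99 ≤ y ^ 100 := by
        have h4 : 0 < y ^ 99 := by positivity
        have h5 : y ^ 100 = y * y ^ 99 := by ring
        rw [h5]
        nlinarith
      linarith
    have h2 : X ^ (19 / 20 : ℝ) ≤ X ^ (1 - e) :=
      Real.rpow_le_rpow_of_exponent_le hX1 (by linarith)
    have h3 : (y ^ 99) ^ (19 / 20 : ℝ) ≤ X ^ (19 / 20 : ℝ) :=
      Real.rpow_le_rpow (by positivity) h1 (by norm_num)
    refine le_trans ?_ (h3.trans h2)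
    rw [← Real.rpow_natCast, ← Real.rpow_natCast, ← Real.rpow_mul hy0.le]
    exact Real.rpow_le_rpow_of_exponent_le hy1 (by norm_num)
  have hY0 : 0 < X ^ (1 - e) := by positivity
  have hYW : (X ^ (1 - e)) ^ 2 ≤ X ^ (2 - η) := by nlinarith
  have hW : X ^ (2 - 2 * η) ≤ X ^ (2 - η) :=
    Real.rpow_le_rpow_of_exponent_le hX1 (by linarith)
  have key := core h hY (W1 := X ^ (2 - 2 * η)) (W2 := X ^ (2 - η)) (by positivity) hW hYW T (by
    intro x hx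
    obtain ⟨b1, b2, b3, b4, b5, b6, b7⟩ := hT x hx
    have y2 : y ^ 2 < y ^ 94 := pow_lt_pow_right₀ (by linarith) (by norm_num)
    have hr : ∀ q : ℕ, q.Prime → X ^ (1 - e) < (q : ℝ) → Odd q ∧
        ∀ l : ℕ, l.Prime → 3 ≤ l → (l : ℝ) ≤ y ^ 2 → ¬ l ∣ q := by
      intro q hq hXq
      have hq2 : y ^ 2 < (q : ℝ) := by linarith
      constructor
      · apply hq.odd_of_ne_two
        rintro rfl
        have : (1000000 : ℝ) ≤ y ^ 2 := by nlinarith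
        norm_num at hq2
        linarith
      · intro l hl _ hly hlq
        rw [Nat.prime_dvd_prime_iff_eq hl hq] at hlq
        rw [hlq] at hly
        linarith
    obtain ⟨o1, r1⟩ := hr x.1 b1 b3
    obtain ⟨o2, r2⟩ := hr x.2 b2 b4
    refine ⟨o1, o2, b3, b4, b5, b6, ?_, fun l hl h3 hly => ⟨r1 l hl h3 hly, r2 l hl h3 hly⟩⟩
    have := (ZMod.natCast_eq_natCast_iff _ _ _).mpr b7
    push_cast at this
    exact this)
  refine key.trans ?_
  have hlog2 := Real.log_two_gt_d9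
  have e1 : Real.logb 2 (X ^ (2 - η) / (X ^ (1 - e)) ^ 2) ≤ 3 * (e * L) := by
    have : X ^ (2 - η) / (X ^ (1 - e)) ^ 2 = X ^ (2 * e - η) := by
      rw [← Real.rpow_natCast, ← Real.rpow_mul hX0.le, ← Real.rpow_sub hX0]
      congr 1
      push_cast
      ring
    rw [this, Real.logb, Real.log_rpow hX0, div_le_iff₀ (by linarith)]
    have hlX : 0 ≤ log X := Real.log_nonneg hX1
    calc (2 * e - η) * log X ≤ (2 * e) * L := by
          apply mul_le_mul (by linarith) hlogXL hlX (by positivity)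
      _ ≤ 3 * (e * L) * log 2 := by nlinarith
  have e2 : Real.logb 2 (X ^ (2 - η) / X ^ (2 - 2 * η)) ≤ 3 / 2 * (η * L) := by
    have : X ^ (2 - η) / X ^ (2 - 2 * η) = X ^ η := by
      rw [← Real.rpow_sub hX0]
      congr 1
      ring
    rw [this, Real.logb, Real.log_rpow hX0, div_le_iff₀ (by linarith)]
    calc η * log X ≤ η * L := by gcongr
      _ ≤ 3 / 2 * (η * L) * log 2 := by nlinarith
  have g2 : 0 ≤ Real.logb 2 (X ^ (2 - η) / X ^ (2 - 2 * η)) :=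
    Real.logb_nonneg (by norm_num) ((one_le_div (by positivity)).mpr hW)
  calc (Real.logb 2 (X ^ (2 - η) / (X ^ (1 - e)) ^ 2) + 2) *
        (Real.logb 2 (X ^ (2 - η) / X ^ (2 - 2 * η)) + 3) * (2600 / (p * L ^ 2))
      ≤ (4 * (e * L)) * (3 * (η * L)) * (2600 / (p * L ^ 2)) := by
        gcongr
        · linarith
        · linarith
    _ = 31200 * e * η / p := by field_simp; ring
    _ ≤ 40000 * e * η / p := by
        gcongr
        norm_num

/-- The same for the sum of `1 / n` over the products `n` themselves. -/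
theorem gap_n (e η : ℝ) (he : 0 < e) (he1 : e ≤ 1 / 20) (hη : 0 < η) : ∃ X0 : ℝ, 1 ≤ X0 ∧
    ∀ X : ℝ, X0 ≤ X → ∀ p : ℕ, p.Prime → X ≤ p → (p : ℝ) ≤ 2 * X →
    ∀ N : Finset ℕ, (∀ n ∈ N, X ^ (2 - 2 * η) < (n : ℝ) ∧ (n : ℝ) ≤ X ^ (2 - η) ∧
      n ≡ 1 [MOD p] ∧ ∃ q₁ q₂ : ℕ, q₁.Prime ∧ q₂.Prime ∧ X ^ (1 - e) < (q₁ : ℝ) ∧
        X ^ (1 - e) < (q₂ : ℝ) ∧ q₁ * q₂ = n) →
    ∑ n ∈ N, 1 / (n : ℝ) ≤ 40000 * e * η / p := by
  classical
  obtain ⟨X0, h1, h2⟩ := gap e η he he1 hη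
  refine ⟨X0, h1, fun X hX p hp hXp hpX N hN => ?_⟩
  choose! g1 g2 g3 using fun n hn => (hN n hn).2.2.2
  have hinj : Set.InjOn (fun n => ((g1 n, g2 n) : ℕ × ℕ)) (N : Set ℕ) := by
    intro a ha b hb hab
    simp only [Prod.mk.injEq] at hab
    rw [← (g3 a ha).2.2.2.2, ← (g3 b hb).2.2.2.2, hab.1, hab.2]
  have := h2 X hX p hp hXp hpX (N.image fun n => ((g1 n, g2 n) : ℕ × ℕ)) (by
    intro x hx
    rw [mem_image] at hx
    obtain ⟨n, hn, rfl⟩ := hx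
    obtain ⟨c1, c2, c3, c4, c5⟩ := g3 n hn
    obtain ⟨d1, d2, d3, -⟩ := hN n hn
    have e : (g1 n : ℝ) * (g2 n : ℝ) = n := by exact_mod_cast c5
    simp only
    rw [e, c5]
    exact ⟨c1, c2, c3, c4, d1, d2, d3⟩)
  rw [sum_image (by exact_mod_cast hinj)] at this
  refine le_trans (le_of_eq ?_) this
  refine Finset.sum_congr rfl fun n hn => ?_
  have e : (g1 n : ℝ) * (g2 n : ℝ) = n := by exact_mod_cast (g3 n hn).2.2.2.2
  rw [e]

end GPX
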