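import Mathlib
import Pool.Agent.GPX.E

/-! [GPX-F] The number of products of two primes of the same size in the residue class `1`
modulo `p`. -/

namespace GPX

open Finset Real
open Pool.Agent.MP_2f88e5_nt (Large exists_large)

/-- For `X ≤ p ≤ 2 X` and `0 < W₁ ≤ W₂ ≤ κ W₁`, `W₂ ≤ X ^ (2 + e)`: the number of
`n ≡ 1 (mod p)` in `(W₁, W₂]` that are products of two primes `> X ^ (1 - e)` is at most
`C e W₂ / (p log X)`. -/
theorem gap_card (e : ℝ) (he : 0 < e) (he1 : e ≤ 1 / 20) : ∃ X0 : ℝ, 1 ≤ X0 ∧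
    ∀ X : ℝ, X0 ≤ X → ∀ p : ℕ, p.Prime → X ≤ p → (p : ℝ) ≤ 2 * X →
    ∀ κ W1 W2 : ℝ, 1 ≤ κ → 0 < W1 → W1 ≤ W2 → W2 ≤ κ * W1 → W2 ≤ X ^ (2 + e) →
    ∀ N : Finset ℕ, (∀ n ∈ N, W1 < (n : ℝ) ∧ (n : ℝ) ≤ W2 ∧
      n ≡ 1 [MOD p] ∧ ∃ q₁ q₂ : ℕ, q₁.Prime ∧ q₂.Prime ∧ X ^ (1 - e) < (q₁ : ℝ) ∧
        X ^ (1 - e) < (q₂ : ℝ) ∧ q₁ * q₂ = n) →
    (N.card : ℝ) ≤ 20000 * (Real.logb 2 κ + 3) * e * W2 / (p * log X) := by
  obtain ⟨p₀, hp₀⟩ := exists_large
  refine ⟨max (max p₀ 3) (exp (2 / e)),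
    le_trans (by norm_num) ((le_max_right (p₀ : ℝ) 3).trans (le_max_left _ _)), ?_⟩
  intro X hX p hp hXp hpX κ W1 W2 hκ hW1 hW hW2 hW2X N hN
  have : Fact p.Prime := ⟨hp⟩
  have hX3 : 3 ≤ X := ((le_max_right (p₀ : ℝ) 3).trans (le_max_left _ _)).trans hX
  have hX1 : 1 ≤ X := by linarith
  have hX0 : 0 < X := by linarith
  have hXp₀ : (p₀ : ℝ) ≤ X := ((le_max_left (p₀ : ℝ) 3).trans (le_max_left _ _)).trans hX
  have hpp₀ : p₀ ≤ p := by exact_mod_cast hXp₀.trans hXp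
  have h := hp₀ p hpp₀
  obtain ⟨y, hy'⟩ : ∃ y : ℝ, y = (p : ℝ) ^ (1 / 100 : ℝ) := ⟨_, rfl⟩
  obtain ⟨L, hL'⟩ : ∃ L : ℝ, L = log p := ⟨_, rfl⟩
  rw [← hy', ← hL'] at h
  have hp0 : (0 : ℝ) < p := by exact_mod_cast hp.pos
  have hlX0 : 0 < log X := Real.log_pos (by linarith)
  have hlogX : 2 / e ≤ log X := by
    rw [Real.le_log_iff_exp_le hX0]
    exact (le_max_right _ _).trans hX
  have hlogXL : log X ≤ L := by rw [hL']; exact Real.log_le_log hX0 hXp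
  have heL : 2 ≤ e * L := by
    have : 2 / e ≤ L := hlogX.trans hlogXL
    rw [div_le_iff₀ he] at this
    linarith
  have hy := h.y_ge
  have hy1 : (1 : ℝ) ≤ y := by linarith
  have hy0 : (0 : ℝ) < y := by linarith
  have hL := h.h1
  have hL0 : 0 < L := by linarith
  have hκ0 : 0 ≤ Real.logb 2 κ := Real.logb_nonneg (by norm_num) hκ
  have hW20 : 0 < W2 := lt_of_lt_of_le hW1 hW
  rcases N.eq_empty_or_nonempty with hTe | ⟨n0, hn0⟩
  · rw [hTe, card_empty, Nat.cast_zero]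
    positivity
  classical
  choose! g1 g2 g3 using fun n hn => (hN n hn).2.2.2
  have hinj : Set.InjOn (fun n => ((g1 n, g2 n) : ℕ × ℕ)) (N : Set ℕ) := by
    intro a ha b hb hab
    simp only [Prod.mk.injEq] at hab
    rw [← (g3 a ha).2.2.2.2, ← (g3 b hb).2.2.2.2, hab.1, hab.2]
  have hY : y ^ 94 ≤ X ^ (1 - e) := by
    have h1 : y ^ 99 ≤ X := by
      have : y ^ 100 ≤ 2 * X := by rw [h.hy]; exact hpX
      have h3 : 2 * y ^ 99 ≤ y ^ 100 := by
        have h4 : 0 < y ^ 99 := by positivity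
        have h5 : y ^ 100 = y * y ^ 99 := by ring
        rw [h5]
        nlinarith
      linarith
    have h2 : X ^ (19 / 20 : ℝ) ≤ X ^ (1 - e) :=
      Real.rpow_le_rpow_of_exponent_le hX1 (by linarith)
    have h3 : (y ^ 99) ^ (19 / 20 : ℝ) ≤ X ^ (19 / 20 : ℝ) :=
      Real.rpow_le_rpow (by positivity) h1 (by norm_num)
    refine le_trans ?_ (h3.trans h2)
    rw [← Real.rpow_natCast, ← Real.rpow_natCast, ← Real.rpow_mul hy0.le]
    exact Real.rpow_le_rpow_of_exponent_le hy1 (by norm_num)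
  have hY0 : 0 < X ^ (1 - e) := by positivity
  have hYW : (X ^ (1 - e)) ^ 2 ≤ W2 := by
    obtain ⟨c1, c2, c3, c4, c5⟩ := g3 n0 hn0
    obtain ⟨d1, d2, d3, -⟩ := hN n0 hn0
    have e : (g1 n0 : ℝ) * (g2 n0 : ℝ) = n0 := by exact_mod_cast c5
    nlinarith
  set T : Finset (ℕ × ℕ) := N.image fun n => ((g1 n, g2 n) : ℕ × ℕ) with hTdef
  have hTcard : T.card = N.card := card_image_of_injOn hinj
  have hTW : ∀ x ∈ T, W1 < (x.1 : ℝ) * x.2 ∧ (x.1 : ℝ) * x.2 ≤ W2 := by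
    intro x hx
    rw [hTdef, mem_image] at hx
    obtain ⟨n, hn, rfl⟩ := hx
    obtain ⟨c1, c2, c3, c4, c5⟩ := g3 n hn
    obtain ⟨d1, d2, d3, -⟩ := hN n hn
    have e : (g1 n : ℝ) * (g2 n : ℝ) = n := by exact_mod_cast c5
    simp only
    rw [e]
    exact ⟨d1, d2⟩
  have key := core h hY (W1 := W1) (W2 := W2) hW1 hW hYW T (by
    intro x hx
    obtain ⟨t1, t2⟩ := hTW x hx
    rw [hTdef, mem_image] at hx
    obtain ⟨n, hn, rfl⟩ := hx
    obtain ⟨b1, b2, b3, b4, b5⟩ := g3 n hn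
    have y2 : y ^ 2 < y ^ 94 := pow_lt_pow_right₀ (by linarith) (by norm_num)
    have hr : ∀ q : ℕ, q.Prime → X ^ (1 - e) < (q : ℝ) → Odd q ∧
        ∀ l : ℕ, l.Prime → 3 ≤ l → (l : ℝ) ≤ y ^ 2 → ¬ l ∣ q := by
      intro q hq hXq
      have hq2 : y ^ 2 < (q : ℝ) := by linarith
      constructor
      · apply hq.odd_of_ne_two
        rintro rfl
        have : (1000000 : ℝ) ≤ y ^ 2 := by nlinarith
        norm_num at hq2
        linarith
      · intro l hl _ hly hlq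
        rw [Nat.prime_dvd_prime_iff_eq hl hq] at hlq
        rw [hlq] at hly
        linarith
    obtain ⟨o1, r1⟩ := hr _ b1 b3
    obtain ⟨o2, r2⟩ := hr _ b2 b4
    refine ⟨o1, o2, b3, b4, t1, t2, ?_, fun l hl h3 hly => ⟨r1 l hl h3 hly, r2 l hl h3 hly⟩⟩
    have h7 := (hN n hn).2.2.1
    rw [← b5] at h7
    have := (ZMod.natCast_eq_natCast_iff _ _ _).mpr h7
    push_cast at this
    exact this)
  have hlow : (N.card : ℝ) / W2 ≤ ∑ x ∈ T, 1 / ((x.1 : ℝ) * x.2) := by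
    rw [← hTcard]
    calc (T.card : ℝ) / W2 = ∑ x ∈ T, 1 / W2 := by
          rw [sum_const, nsmul_eq_mul]; ring
      _ ≤ _ := by
          refine Finset.sum_le_sum fun x hx => ?_
          obtain ⟨t1, t2⟩ := hTW x hx
          exact one_div_le_one_div_of_le (by linarith) t2
  have hlog2 := Real.log_two_gt_d9
  have e1 : Real.logb 2 (W2 / (X ^ (1 - e)) ^ 2) + 2 ≤ 6 * (e * L) := by
    have s1 : W2 / (X ^ (1 - e)) ^ 2 ≤ X ^ (3 * e) := by
      rw [div_le_iff₀ (by positivity)]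
      have : X ^ (3 * e) * (X ^ (1 - e)) ^ 2 = X ^ (2 + e) := by
        rw [← Real.rpow_natCast, ← Real.rpow_mul hX0.le, ← Real.rpow_add hX0]
        congr 1
        push_cast
        ring
      rw [this]
      exact hW2X
    have s2 : Real.logb 2 (W2 / (X ^ (1 - e)) ^ 2) ≤ 5 * (e * L) := by
      calc Real.logb 2 (W2 / (X ^ (1 - e)) ^ 2) ≤ Real.logb 2 (X ^ (3 * e)) :=
            Real.logb_le_logb_of_le (by norm_num) (by positivity) s1
        _ = 3 * e * log X / log 2 := by rw [Real.logb, Real.log_rpow hX0]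
        _ ≤ 3 * e * L / log 2 := by gcongr
        _ ≤ 5 * (e * L) := by
          rw [div_le_iff₀ (by linarith)]
          nlinarith
    linarith
  have e2 : Real.logb 2 (W2 / W1) ≤ Real.logb 2 κ := by
    apply Real.logb_le_logb_of_le (by norm_num) (by positivity)
    rw [div_le_iff₀ hW1]
    exact hW2
  have g2 : 0 ≤ Real.logb 2 (W2 / W1) :=
    Real.logb_nonneg (by norm_num) ((one_le_div (by positivity)).mpr hW)
  have hfin := hlow.trans key
  rw [div_le_iff₀ hW20] at hfin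
  refine hfin.trans ?_
  calc (Real.logb 2 (W2 / (X ^ (1 - e)) ^ 2) + 2) * (Real.logb 2 (W2 / W1) + 3) *
        (2600 / (p * L ^ 2)) * W2
      ≤ (6 * (e * L)) * (Real.logb 2 κ + 3) * (2600 / (p * L ^ 2)) * W2 := by
        gcongr
    _ = 15600 * (Real.logb 2 κ + 3) * e * W2 / (p * L) := by field_simp; ring
    _ ≤ 20000 * (Real.logb 2 κ + 3) * e * W2 / (p * log X) := by
        gcongr
        norm_num

end GPX
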